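import Pool.Agent.FTU.Stmts
import Pool.Agent.Helper52_MBX.NFC

/-! Row NFT of squad FTU (MP_8cfbae_mp): the energy densities are nice. -/

set_option autoImplicit false

open MeasureTheory Complex ProbabilityTheory

namespace Pool.Agent.FTU.H50

open Pool.Agent.Helper49_Pauli
open Pool.Agent.MBX
open Pool.Agent.FTU
open Pool.Agent.Loc (γn PB)

theorem nf_nsq (htcd : TcdStmt) (ι : Type) [Fintype ι] [DecidableEq ι]
    (psi : (ι → ℝ) → X3 → S2) (h : TC psi) : NF (fun y x => nsq (psi y x)) := by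
  obtain ⟨-, -, -, -, -, -, hc, C, m, R, hC, hb⟩ := htcd ι psi h
  refine ⟨?_, 2 * C ^ 2, 2 * m, R, by positivity, fun y x => ⟨?_, fun hx => ?_⟩⟩
  · unfold nsq
    apply continuous_finsetSum
    intro s _
    exact ((continuous_apply s).comp hc).norm.pow 2
  · rw [abs_of_nonneg (nsq_nonneg _)]
    have hp : ∏ i, (1 + |y i|) ^ (2 * m) = (∏ i, (1 + |y i|) ^ m) ^ 2 := by
      rw [← Finset.prod_pow]
      refine Finset.prod_congr rfl fun i _ => ?_
      rw [← pow_mul, mul_comm]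
    have hs : ∀ s, ‖psi y x s‖ ^ 2 ≤ (C * ∏ i, (1 + |y i|) ^ m) ^ 2 := fun s =>
      pow_le_pow_left₀ (norm_nonneg _) ((hb y x).1 s) 2
    unfold nsq
    calc ∑ s, ‖psi y x s‖ ^ 2 ≤ ∑ _s : Fin 2, (C * ∏ i, (1 + |y i|) ^ m) ^ 2 :=
          Finset.sum_le_sum fun s _ => hs s
      _ = 2 * C ^ 2 * ∏ i, (1 + |y i|) ^ (2 * m) := by
          rw [hp, Fin.sum_univ_two]
          ring
  · show nsq (psi y x) = 0
    rw [(hb y x).2 hx]
    unfold nsq
    simp

theorem nf_zero (ι : Type) [Fintype ι] : NF (fun (_ : ι → ℝ) (_ : X3) => (0 : ℝ)) :=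
  ⟨continuous_const, 0, 0, 0, le_refl _, fun y x => ⟨by simp, fun _ => rfl⟩⟩

theorem nf_smul (ι : Type) [Fintype ι] (w : ℝ) (F : (ι → ℝ) → X3 → ℝ) (h : NF F) :
    NF (fun y x => w * F y x) := by
  obtain ⟨hc, C, m, R, hC, hb⟩ := h
  refine ⟨hc.const_mul w, |w| * C, m, R, by positivity, fun y x => ⟨?_, fun hx => ?_⟩⟩
  · rw [abs_mul, mul_assoc]
    exact mul_le_mul_of_nonneg_left (hb y x).1 (abs_nonneg _)
  · show w * F y x = 0
    rw [(hb y x).2 hx, mul_zero]

/-- ROW NFT -/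
theorem nft (htcd : TcdStmt) : NftStmt := by
  intro ι _ _ psi h
  have h0 := htcd ι psi h
  refine ⟨nf_nsq htcd ι psi h, fun S e => ?_, fun w => ?_⟩
  · exact nf_nsq htcd ι _ (h0.2.2.2.2.2.1 S e)
  · have key : ∀ T : Finset ι, NF (fun y x => ∑ i ∈ T, w i * nsq (dY2 i psi y x)) := by
      intro T
      induction T using Finset.induction_on with
      | empty =>
        simp only [Finset.sum_empty]
        exact nf_zero ι
      | insert a T ha ih =>
        have h1 : NF (fun y x => w a * nsq (dY2 a psi y x)) :=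
          nf_smul ι (w a) _ (nf_nsq htcd ι _ (h0.2.2.1 a).1)
        have h2 := ((Pool.Agent.MBX.H52.nfc ι _ h1).1 _ ih).1
        simp only [Finset.sum_insert ha]
        exact h2
    exact key Finset.univ

end Pool.Agent.FTU.H50
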